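import Pool.Agent.MZT.F2

/-!
# The parabolic subgroup attached to a commensurated subgroup of a lattice in `SL_n(ℝ)`

`Binf μ N (Bor n) F` says that `F` is a bounded measurable function on `G ⧸ B` (`G = SL_n(ℝ)`,
`B = Bor n` the upper triangular group) which is a limit, in `L¹` on the compact subsets of `G`, of
bounded measurable functions on `G ⧸ B` which are invariant under finite index subgroups of `N`.
`QJ n J` is the group of block upper triangular matrices with block boundaries `k ∉ J`, and
`Adm μ (QJ n J) F` says that `F` is a bounded measurable function on `G ⧸ QJ n J`.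
-/

namespace Pool.Agent.Results.MP_7adbc4_al.FlagParabolic

open Pool.Agent.MZT MeasureTheory

theorem result {n : ℕ} (hn : 3 ≤ n) (Γ : Subgroup (SLn n)) (hΓ : IsLattice Γ)
    (N : Subgroup (SLn n)) (hN : N ≤ Γ) (hc : Γ ≤ Subgroup.Commensurable.commensurator N)
    (μ : Measure (SLn n)) [μ.IsHaarMeasure] :
    ∃ J : Set ℕ, (∀ F : SLn n → ℝ, Binf μ N (Bor n) F ↔ Adm μ (QJ n J) F) ∧
      (QJ n J = ⊤ ↔ N.relIndex Γ ≠ 0) :=
  flag_parabolic hn Γ hΓ N hN hc μ

end Pool.Agent.Results.MP_7adbc4_al.FlagParabolic
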