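import Pool.Agent.MZT.F1

/-!
# A growth gap for commensurated subgroups of lattices in `SL_n(ℝ)`

`SLn n` is `SL_n(ℝ)` and `IsLattice Γ` says that `Γ` is discrete and `G ⧸ Γ` carries a nonzero
finite invariant Borel measure. For a product `g` of `k` generators (or inverses of generators, or
`1`) the number `(N.map (MulAut.conj g).toMonoidHom).relIndex N` is the index of `N ∩ g N g⁻¹`
in `N`.
-/

namespace Pool.Agent.Results.MP_7adbc4_al.GrowthGap

open Pool.Agent.MZT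

theorem result {n : ℕ} (hn : 3 ≤ n) (Γ : Subgroup (SLn n)) (hΓ : IsLattice Γ)
    (S : Finset (SLn n)) (hS : Subgroup.closure (S : Set (SLn n)) = Γ) :
    ∃ c : ℝ, 1 < c ∧ ∀ N : Subgroup (SLn n), N ≤ Γ →
      Γ ≤ Subgroup.Commensurable.commensurator N →
      (Finite N ∨ N.relIndex Γ ≠ 0) ∨
      ∀ k : ℕ, ∃ l : List (SLn n), l.length = k ∧ (∀ x ∈ l, x ∈ S ∨ x⁻¹ ∈ S ∨ x = 1) ∧
        c ^ k ≤ ((N.map (MulAut.conj l.prod).toMonoidHom).relIndex N : ℝ) :=
  growth_gap hn Γ hΓ S hS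

end Pool.Agent.Results.MP_7adbc4_al.GrowthGap
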