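import Pool.Agent.MZT.F3

/-!
# Commensurated subgroups which contain a lattice of a large subgroup

`Lv 0` is `S(GL_1 × GL_{n-1})` (block diagonal matrices); for `n = 2m`, `Hb m` is
`SL_m(ℝ) × SL_m(ℝ)` and `Hc m` is `SL_m(ℂ)`. `Bor n` is the upper triangular group,
`stH H (Bor n) g` the stabiliser in `H` of the flag `g (Bor n)`, and `RelHM H R` says that in every
unitary representation of `H` the vectors fixed by `R` are fixed by `H`.
-/

namespace Pool.Agent.Results.MP_7adbc4_al.LargeSubgroup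

open Pool.Agent.MZT MeasureTheory

theorem result {n : ℕ} (hn : 3 ≤ n) (Γ : Subgroup (SLn n)) (hΓ : IsLattice Γ)
    (N : Subgroup (SLn n)) (hN : N ≤ Γ) (hc : Γ ≤ Subgroup.Commensurable.commensurator N)
    (H : Subgroup (SLn n)) (hlat : IsLattice (N.subgroupOf H))
    (hH : (∃ a : SLn n, H = (Lv (⟨0, by omega⟩ : Fin n)).map (MulAut.conj a).toMonoidHom) ∨
      (∃ (m : ℕ) (h : m + m = n) (a : SLn n),
        H = (castS h (Hb m)).map (MulAut.conj a).toMonoidHom) ∨
      (∃ (m : ℕ) (h : m + m = n) (a : SLn n),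
        H = (castS h (Hc m)).map (MulAut.conj a).toMonoidHom) ∨
      (IsClosed (H : Set (SLn n)) ∧ ¬ H ≤ Subgroup.center (SLn n) ∧
        ∃ μ : Measure (SLn n), μ.IsHaarMeasure ∧ μ {g | RelHM H (stH H (Bor n) g)} ≠ 0)) :
    N.relIndex Γ ≠ 0 :=
  large_subgroup hn Γ hΓ N hN hc H hlat hH

end Pool.Agent.Results.MP_7adbc4_al.LargeSubgroup
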