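import Pool.Agent.MZQ.G3

/-!
# Commensurated subgroups of `SL₂` over quaternion orders in `SL₄(ℝ)`

`a > 0` and `b` are integers such that the quaternion algebra `(a, b)` over `ℚ` is a division
algebra (`Div a b`), `Oq a b = ℤ⟨1, i, j, k⟩`, `i² = a`, `j² = b`, `ij = -ji = k`, and
`SL2O a b ha` is the group of matrices in `SL₄(ℝ)` which come from invertible two by two matrices
over `Oq a b` under the embedding `i ↦ diag(√a, -√a)`, `j ↦ (0 b; 1 0)`.
-/

namespace Pool.Agent.Results.MP_7adbc4_al.QuaternionSL2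

open Pool.Agent.MZQ

theorem result (a b : ℤ) (ha : 0 < a) (hd : Div a b)
    (Γ : Subgroup (Matrix.SpecialLinearGroup (Fin 2 × Fin 2) ℝ))
    (hΓ : Γ.Commensurable (SL2O a b ha))
    (N : Subgroup (Matrix.SpecialLinearGroup (Fin 2 × Fin 2) ℝ)) (hN : N ≤ Γ)
    (hc : Γ ≤ Subgroup.Commensurable.commensurator N) :
    Finite N ∨ N.relIndex Γ ≠ 0 :=
  main_thm a b ha hd Γ hΓ N hN hc

end Pool.Agent.Results.MP_7adbc4_al.QuaternionSL2
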